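import Pool.Agent.MP_6b3e96_gt.H77.Spec

/-!
The interior gradient estimate of Brandt.
-/

open Set Filter Topology

noncomputable section

namespace Pool.Agent.MP_6b3e96_gt.H28

open Pool.Agent.MP_6b3e96_gt.H77

/-- The second derivative at a local maximum is not positive. -/
lemma second_nonpos {f f₁ : ℝ → ℝ} {x d : ℝ} (hm : IsLocalMax f x)
    (h1 : ∀ᶠ t in 𝓝 x, HasDerivAt f (f₁ t) t) (h2 : HasDerivAt f₁ d x) : d ≤ 0 := by
  by_contra hd
  push Not at hd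
  have e1 : deriv f =ᶠ[𝓝 x] f₁ := h1.mono fun t ht => ht.deriv
  have e2 : deriv (deriv f) x = d := by rw [e1.deriv_eq, h2.deriv]
  have hx := h1.self_of_nhds
  have hmin : IsLocalMin f x :=
    isLocalMin_of_deriv_deriv_pos (by rw [e2]; exact hd) hm.deriv_eq_zero hx.continuousAt
  have hc : f =ᶠ[𝓝 x] fun _ => f x := by
    filter_upwards [hm, hmin] with t h h' using le_antisymm h h'
  have hc' : deriv f =ᶠ[𝓝 x] fun _ => 0 := by
    filter_upwards [hc.deriv] with t ht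
    simpa using ht
  have : deriv (deriv f) x = 0 := by rw [hc'.deriv_eq]; simp
  linarith

/-- Weak maximum principle on a rectangle. -/
lemma max_principle (u u₁ u₁₁ u₂ u₂₂ : ℝ → ℝ → ℝ) (a b c d : ℝ)
    (hc : ContinuousOn (fun p : ℝ × ℝ => u p.1 p.2) (Icc a b ×ˢ Icc c d))
    (hd : ∀ x ∈ Ioo a b, ∀ y ∈ Ioo c d,
      HasDerivAt (fun t => u t y) (u₁ x y) x ∧ HasDerivAt (fun t => u₁ t y) (u₁₁ x y) x ∧
      HasDerivAt (fun t => u x t) (u₂ x y) y ∧ HasDerivAt (fun t => u₂ x t) (u₂₂ x y) y ∧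
      0 ≤ u₁₁ x y + u₂₂ x y)
    (hb : ∀ x ∈ Icc a b, ∀ y ∈ Icc c d, (x = a ∨ x = b ∨ y = c ∨ y = d) → u x y ≤ 0) :
    ∀ x ∈ Icc a b, ∀ y ∈ Icc c d, u x y ≤ 0 := by
  intro x hx y hy
  have key : ∀ θ > 0, u x y ≤ θ * (b - a) ^ 2 := by
    intro θ hθ
    set w : ℝ × ℝ → ℝ := fun p => u p.1 p.2 + θ * (p.1 - a) ^ 2 with hw
    have hwc : ContinuousOn w (Icc a b ×ˢ Icc c d) := hc.add (by fun_prop)
    obtain ⟨q, hq, hmax⟩ := (isCompact_Icc.prod isCompact_Icc).exists_isMaxOn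
      ⟨(x, y), hx, hy⟩ hwc
    have h1 : w (x, y) ≤ w q := hmax (show (x, y) ∈ Icc a b ×ˢ Icc c d from ⟨hx, hy⟩)
    have hq2 : (q.1 - a) ^ 2 ≤ (b - a) ^ 2 := by
      have := hq.1.1
      have := hq.1.2
      gcongr
    by_cases hbd : q.1 = a ∨ q.1 = b ∨ q.2 = c ∨ q.2 = d
    · have := hb _ hq.1 _ hq.2 hbd
      simp only [hw] at h1
      nlinarith [sq_nonneg (x - a), mul_le_mul_of_nonneg_left hq2 hθ.le]
    · push Not at hbd
      have hx' : q.1 ∈ Ioo a b := ⟨lt_of_le_of_ne hq.1.1 hbd.1.symm, lt_of_le_of_ne hq.1.2 hbd.2.1⟩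
      have hy' : q.2 ∈ Ioo c d :=
        ⟨lt_of_le_of_ne hq.2.1 hbd.2.2.1.symm, lt_of_le_of_ne hq.2.2 hbd.2.2.2⟩
      obtain ⟨-, k2, -, k4, k5⟩ := hd _ hx' _ hy'
      have m1 : IsLocalMax (fun t => u t q.2 + θ * (t - a) ^ 2) q.1 := by
        filter_upwards [Ioo_mem_nhds hx'.1 hx'.2] with t ht
        exact hmax (show (t, q.2) ∈ Icc a b ×ˢ Icc c d from ⟨Ioo_subset_Icc_self ht, hq.2⟩)
      have m2 : IsLocalMax (fun t => u q.1 t) q.2 := by
        filter_upwards [Ioo_mem_nhds hy'.1 hy'.2] with t ht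
        have := hmax (show (q.1, t) ∈ Icc a b ×ˢ Icc c d from ⟨hq.1, Ioo_subset_Icc_self ht⟩)
        simp only [hw, mem_ofPred_eq] at this
        linarith
      have n1 : u₁₁ q.1 q.2 + θ * 2 ≤ 0 := by
        refine second_nonpos (f₁ := fun t => u₁ t q.2 + θ * (2 * (t - a))) m1 ?_ ?_
        · filter_upwards [Ioo_mem_nhds hx'.1 hx'.2] with t ht
          refine (hd _ ht _ hy').1.add (HasDerivAt.const_mul θ ?_)
          simpa using ((hasDerivAt_id t).sub_const a).fun_pow 2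
        · refine k2.add (HasDerivAt.const_mul θ ?_)
          simpa using ((hasDerivAt_id q.1).sub_const a).const_mul 2
      have n2 : u₂₂ q.1 q.2 ≤ 0 := by
        refine second_nonpos (f₁ := fun t => u₂ q.1 t) m2 ?_ k4
        filter_upwards [Ioo_mem_nhds hy'.1 hy'.2] with t ht
        exact (hd _ hx' _ ht).2.2.1
      linarith
  refine le_of_forall_pos_le_add fun e he => ?_
  have hp : 0 < (b - a) ^ 2 + 1 := by positivity
  have := key (e / ((b - a) ^ 2 + 1)) (by positivity)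
  have h2 : e / ((b - a) ^ 2 + 1) * (b - a) ^ 2 ≤ e := by
    rw [div_mul_eq_mul_div, div_le_iff₀ hp]
    nlinarith
  linarith

/-- One-sided form of the estimate. -/
lemma brandt_one (φ φ₁ φ₁₁ φ₂ φ₂₂ : ℝ → ℝ → ℝ) (x₀ y₀ r ε M : ℝ) (hr : 0 < r)
    (hc : ContinuousOn (fun p : ℝ × ℝ => φ p.1 p.2)
      (Icc (x₀ - r) (x₀ + r) ×ˢ Icc (y₀ - r) (y₀ + r)))
    (hb : ∀ x ∈ Icc (x₀ - r) (x₀ + r), ∀ y ∈ Icc (y₀ - r) (y₀ + r), |φ x y| ≤ ε)
    (hd : ∀ x ∈ Ioo (x₀ - r) (x₀ + r), ∀ y ∈ Ioo (y₀ - r) (y₀ + r),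
      HasDerivAt (fun t => φ t y) (φ₁ x y) x ∧ HasDerivAt (fun t => φ₁ t y) (φ₁₁ x y) x ∧
      HasDerivAt (fun t => φ x t) (φ₂ x y) y ∧ HasDerivAt (fun t => φ₂ x t) (φ₂₂ x y) y ∧
      |φ₁₁ x y + φ₂₂ x y| ≤ M) :
    φ₁ x₀ y₀ ≤ 2 * ε / r + r * M / 2 := by
  have hx₀ : x₀ ∈ Ioo (x₀ - r) (x₀ + r) := ⟨by linarith, by linarith⟩
  have hy₀ : y₀ ∈ Ioo (y₀ - r) (y₀ + r) := ⟨by linarith, by linarith⟩
  have hε : 0 ≤ ε :=
    (abs_nonneg _).trans (hb _ (Ioo_subset_Icc_self hx₀) _ (Ioo_subset_Icc_self hy₀))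
  have hM : 0 ≤ M := (abs_nonneg _).trans (hd _ hx₀ _ hy₀).2.2.2.2
  set A := 2 * ε / r + r * M / 2 with hA
  set E := ε / r ^ 2 with hE
  have hE0 : 0 ≤ E := by positivity
  have hEr : E * r ^ 2 = ε := by rw [hE]; field_simp
  have hAr : A = 2 * E * r + r * M / 2 := by rw [hA, hE]; field_simp
  have key := max_principle
    (fun x y => (φ (x₀ + x) y - φ (x₀ - x) y) / 2 -
      (E * (y - y₀) ^ 2 + x * A - x ^ 2 * (E + M / 2)))
    (fun x y => (φ₁ (x₀ + x) y + φ₁ (x₀ - x) y) / 2 - (A - 2 * x * (E + M / 2)))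
    (fun x y => (φ₁₁ (x₀ + x) y - φ₁₁ (x₀ - x) y) / 2 + 2 * (E + M / 2))
    (fun x y => (φ₂ (x₀ + x) y - φ₂ (x₀ - x) y) / 2 - E * (2 * (y - y₀)))
    (fun x y => (φ₂₂ (x₀ + x) y - φ₂₂ (x₀ - x) y) / 2 - E * 2) 0 r (y₀ - r) (y₀ + r) ?_ ?_ ?_
  · have hder : HasDerivAt (fun x => (φ (x₀ + x) y₀ - φ (x₀ - x) y₀) / 2 -
        (E * (y₀ - y₀) ^ 2 + x * A - x ^ 2 * (E + M / 2))) (φ₁ x₀ y₀ - A) 0 := by
      have a1 : HasDerivAt (fun x => φ (x₀ + x) y₀) (φ₁ x₀ y₀) 0 := by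
        have := (hd _ hx₀ _ hy₀).1
        exact HasDerivAt.comp_const_add x₀ 0 (by simpa using this)
      have a2 : HasDerivAt (fun x => φ (x₀ - x) y₀) (-φ₁ x₀ y₀) 0 := by
        have := (hd _ hx₀ _ hy₀).1
        exact HasDerivAt.comp_const_sub x₀ 0 (by simpa using this)
      have a3 : HasDerivAt (fun x : ℝ => E * (y₀ - y₀) ^ 2 + x * A - x ^ 2 * (E + M / 2)) A 0 := by
        have := ((((hasDerivAt_id (0 : ℝ)).mul_const A).const_add (E * (y₀ - y₀) ^ 2)).fun_sub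
          (((hasDerivAt_id (0 : ℝ)).fun_pow 2).mul_const (E + M / 2)))
        simpa using this
      exact (((a1.fun_sub a2).div_const 2).fun_sub a3).congr_deriv (by ring)
    have hs := hder.hasDerivWithinAt (s := Ioi 0)
    rw [hasDerivWithinAt_iff_tendsto_slope' (by simp)] at hs
    have : φ₁ x₀ y₀ - A ≤ 0 := by
      refine le_of_tendsto hs ?_
      filter_upwards [Ioo_mem_nhdsGT hr] with t ht
      rw [slope_def_field]
      have := key t (Ioo_subset_Icc_self ht) y₀ (Ioo_subset_Icc_self hy₀)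
      refine div_nonpos_of_nonpos_of_nonneg ?_ (by linarith [ht.1])
      simpa using this
    linarith
  · refine ContinuousOn.sub (ContinuousOn.div_const (ContinuousOn.sub ?_ ?_) 2) (by fun_prop)
    · refine hc.comp (f := fun p : ℝ × ℝ => (x₀ + p.1, p.2)) (by fun_prop) ?_
      rintro p ⟨h1, h2⟩
      exact ⟨⟨by linarith [h1.1], by linarith [h1.2]⟩, h2⟩
    · refine hc.comp (f := fun p : ℝ × ℝ => (x₀ - p.1, p.2)) (by fun_prop) ?_
      rintro p ⟨h1, h2⟩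
      exact ⟨⟨by linarith [h1.2], by linarith [h1.1]⟩, h2⟩
  · intro x hx y hy
    obtain ⟨p1, p2, p3, p4, p5⟩ := hd (x₀ + x) ⟨by linarith [hx.1], by linarith [hx.2]⟩ y hy
    obtain ⟨q1, q2, q3, q4, q5⟩ := hd (x₀ - x) ⟨by linarith [hx.2], by linarith [hx.1]⟩ y hy
    refine ⟨?_, ?_, ?_, ?_, ?_⟩
    · have a3 : HasDerivAt (fun x : ℝ => E * (y - y₀) ^ 2 + x * A - x ^ 2 * (E + M / 2))
          (A - 2 * x * (E + M / 2)) x := by
        have := ((((hasDerivAt_id x).mul_const A).const_add (E * (y - y₀) ^ 2)).fun_sub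
          (((hasDerivAt_id x).fun_pow 2).mul_const (E + M / 2)))
        simpa using this
      exact (((((p1.comp_const_add x₀ x).fun_sub (q1.comp_const_sub x₀ x))).div_const 2).fun_sub
        a3).congr_deriv (by ring)
    · have a3 : HasDerivAt (fun x : ℝ => A - 2 * x * (E + M / 2)) (-(2 * (E + M / 2))) x := by
        have := (((hasDerivAt_id x).const_mul 2).mul_const (E + M / 2)).const_sub A
        simpa using this
      exact (((((p2.comp_const_add x₀ x).fun_add (q2.comp_const_sub x₀ x))).div_const 2).fun_sub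
        a3).congr_deriv (by ring)
    · have a3 : HasDerivAt (fun y : ℝ => E * (y - y₀) ^ 2 + x * A - x ^ 2 * (E + M / 2))
          (E * (2 * (y - y₀))) y := by
        have := ((((((hasDerivAt_id y).sub_const y₀).fun_pow 2).const_mul E).add_const
          (x * A)).sub_const (x ^ 2 * (E + M / 2)))
        simpa using this
      exact ((p3.sub q3).div_const 2).sub a3
    · have a3 : HasDerivAt (fun y : ℝ => E * (2 * (y - y₀))) (E * 2) y := by
        have := ((((hasDerivAt_id y).sub_const y₀).const_mul 2).const_mul E)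
        simpa using this
      exact ((p4.sub q4).div_const 2).sub a3
    · have := abs_le.1 p5
      have := abs_le.1 q5
      linarith [this.1]
  · intro x hx y hy hbd
    have p := abs_le.1 (hb (x₀ + x) ⟨by linarith [hx.1], by linarith [hx.2]⟩ y hy)
    have q := abs_le.1 (hb (x₀ - x) ⟨by linarith [hx.2], by linarith [hx.1]⟩ y hy)
    have h0 : 0 ≤ E * (y - y₀) ^ 2 := by positivity
    have h1 : 0 ≤ x * A - x ^ 2 * (E + M / 2) := by
      have : x * A - x ^ 2 * (E + M / 2) = x * (E * (2 * r - x) + M / 2 * (r - x)) := by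
        rw [hAr]; ring
      rw [this]
      have : 0 ≤ 2 * r - x := by linarith [hx.2]
      have : 0 ≤ r - x := by linarith [hx.2]
      have := hx.1
      positivity
    rcases hbd with h | h | h | h
    · subst h
      simp only [add_zero, sub_zero, sub_self]
      linarith
    · subst h
      have : x * A - x ^ 2 * (E + M / 2) = ε := by rw [hAr, ← hEr]; ring
      linarith [p.2, q.1]
    · have : E * (y - y₀) ^ 2 = ε := by rw [h, ← hEr]; ring
      linarith [p.2, q.1]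
    · have : E * (y - y₀) ^ 2 = ε := by rw [h, ← hEr]; ring
      linarith [p.2, q.1]

/-- Two-sided form of the estimate for the first variable. -/
lemma brandt_abs (φ φ₁ φ₁₁ φ₂ φ₂₂ : ℝ → ℝ → ℝ) (x₀ y₀ r ε M : ℝ) (hr : 0 < r)
    (hc : ContinuousOn (fun p : ℝ × ℝ => φ p.1 p.2)
      (Icc (x₀ - r) (x₀ + r) ×ˢ Icc (y₀ - r) (y₀ + r)))
    (hb : ∀ x ∈ Icc (x₀ - r) (x₀ + r), ∀ y ∈ Icc (y₀ - r) (y₀ + r), |φ x y| ≤ ε)
    (hd : ∀ x ∈ Ioo (x₀ - r) (x₀ + r), ∀ y ∈ Ioo (y₀ - r) (y₀ + r),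
      HasDerivAt (fun t => φ t y) (φ₁ x y) x ∧ HasDerivAt (fun t => φ₁ t y) (φ₁₁ x y) x ∧
      HasDerivAt (fun t => φ x t) (φ₂ x y) y ∧ HasDerivAt (fun t => φ₂ x t) (φ₂₂ x y) y ∧
      |φ₁₁ x y + φ₂₂ x y| ≤ M) :
    |φ₁ x₀ y₀| ≤ 2 * ε / r + r * M / 2 := by
  have h1 := brandt_one φ φ₁ φ₁₁ φ₂ φ₂₂ x₀ y₀ r ε M hr hc hb hd
  have h2 := brandt_one (fun x y => -φ x y) (fun x y => -φ₁ x y) (fun x y => -φ₁₁ x y)
    (fun x y => -φ₂ x y) (fun x y => -φ₂₂ x y) x₀ y₀ r ε M hr hc.neg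
    (fun x hx y hy => by rw [abs_neg]; exact hb x hx y hy) (fun x hx y hy => by
      obtain ⟨p1, p2, p3, p4, p5⟩ := hd x hx y hy
      refine ⟨p1.neg, p2.neg, p3.neg, p4.neg, ?_⟩
      rw [← neg_add, abs_neg]
      exact p5)
  rw [abs_le]
  constructor <;> linarith

theorem brandt : BrandtStmt := by
  intro φ φ₁ φ₁₁ φ₂ φ₂₂ x₀ y₀ r ε M hr hc hb hd
  refine ⟨brandt_abs φ φ₁ φ₁₁ φ₂ φ₂₂ x₀ y₀ r ε M hr hc hb hd, ?_⟩
  refine brandt_abs (fun y x => φ x y) (fun y x => φ₂ x y) (fun y x => φ₂₂ x y)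
    (fun y x => φ₁ x y) (fun y x => φ₁₁ x y) y₀ x₀ r ε M hr ?_ (fun y hy x hx => hb x hx y hy) ?_
  · exact hc.comp (f := Prod.swap) continuous_swap.continuousOn fun p hp => ⟨hp.2, hp.1⟩
  · intro y hy x hx
    obtain ⟨p1, p2, p3, p4, p5⟩ := hd x hx y hy
    exact ⟨p3, p4, p1, p2, by rw [add_comm]; exact p5⟩

end Pool.Agent.MP_6b3e96_gt.H28
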