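import Pool.Agent.MP_6b3e96_gt.H77.Spec

/-!
Green's identity for a folded function with Neumann boundary values.
-/

open scoped ContDiff Real
open Set Filter Topology MeasureTheory Complex

noncomputable section

namespace Pool.Agent.MP_6b3e96_gt.H28

open Pool.Agent.MP_6b3e96_gt.H77

lemma fold1_mem (x : ℝ) : fold1 x ∈ Icc (0 : ℝ) 1 :=
  ⟨div_nonneg (Real.arccos_nonneg _) Real.pi_pos.le,
    (div_le_one Real.pi_pos).2 (Real.arccos_le_pi _)⟩

lemma fold1_of_mem {x : ℝ} (h : x ∈ Icc (0 : ℝ) 1) : fold1 x = x := by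
  unfold fold1
  rw [Real.arccos_cos (mul_nonneg Real.pi_pos.le h.1) (by nlinarith [Real.pi_pos, h.2])]
  field_simp

lemma fold1_neg (x : ℝ) : fold1 (-x) = fold1 x := by
  unfold fold1
  rw [mul_neg, Real.cos_neg]

lemma fold1_two_sub (x : ℝ) : fold1 (2 - x) = fold1 x := by
  unfold fold1
  rw [show π * (2 - x) = 2 * π - π * x by ring, Real.cos_two_pi_sub]

lemma fold1_left {x : ℝ} (h : x ∈ Icc (-1 : ℝ) 0) : fold1 x = 0 + -1 * x := by
  rw [← fold1_neg, fold1_of_mem ⟨by linarith [h.2], by linarith [h.1]⟩]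
  ring

lemma fold1_right {x : ℝ} (h : x ∈ Icc (1 : ℝ) 2) : fold1 x = 2 + -1 * x := by
  rw [← fold1_two_sub, fold1_of_mem ⟨by linarith [h.2], by linarith [h.1]⟩]
  ring

lemma fold1_ne_zero {x : ℝ} (h : x ∈ Ioo (-1 : ℝ) 2) (h0 : x ≠ 0) : fold1 x ≠ 0 := by
  rcases le_total x 0 with h1 | h1
  · rw [fold1_left ⟨h.1.le, h1⟩]
    intro h2
    exact h0 (by linarith)
  · rcases le_total x 1 with h2 | h2
    · rwa [fold1_of_mem ⟨h1, h2⟩]
    · rw [fold1_right ⟨h2, h.2.le⟩]
      linarith [h.2]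

lemma continuous_fold1 : Continuous fold1 := by
  unfold fold1
  exact (Real.continuous_arccos.comp (by fun_prop)).div_const _

lemma continuous_fold : Continuous fold := by
  have : fold = fun w : ℂ => (fold1 w.re : ℂ) + fold1 w.im * I := by
    funext w
    apply Complex.ext <;> simp [fold]
  rw [this]
  have := continuous_fold1
  fun_prop

lemma fold_mem (w : ℂ) : fold w ∈ Sq := ⟨fold1_mem _, fold1_mem _⟩

lemma fold_ne_zero {w : ℂ} (h : w ∈ box (-1) 2 \ {0}) : fold w ≠ 0 := by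
  intro h0
  have h1 : fold1 w.re = 0 := congrArg Complex.re h0
  have h2 : fold1 w.im = 0 := congrArg Complex.im h0
  apply h.2
  have a1 : w.re = 0 := by
    by_contra a
    exact fold1_ne_zero h.1.1 a h1
  have a2 : w.im = 0 := by
    by_contra a
    exact fold1_ne_zero h.1.2 a h2
  exact Complex.ext a1 a2

/-- Integration by parts on one of the three pieces. -/
lemma piece (k k₁ k₂ p p₁ p₂ : ℝ → ℝ) (a b c e : ℝ) (hab : a ≤ b) (he : e * e = 1)
    (hf : ∀ s ∈ Icc a b, fold1 s = c + e * s)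
    (hk : ∀ x ∈ Icc (0 : ℝ) 1, HasDerivAt k (k₁ x) x ∧ HasDerivAt k₁ (k₂ x) x)
    (hp : ∀ x, HasDerivAt p (p₁ x) x ∧ HasDerivAt p₁ (p₂ x) x)
    (hi : Continuous fun s => k (fold1 s) * p₂ s - k₂ (fold1 s) * p s) :
    ∫ s in a..b, (k (fold1 s) * p₂ s - k₂ (fold1 s) * p s) =
      (k (fold1 b) * p₁ b - e * k₁ (fold1 b) * p b) -
        (k (fold1 a) * p₁ a - e * k₁ (fold1 a) * p a) := by
  rw [hf a ⟨le_rfl, hab⟩, hf b ⟨hab, le_rfl⟩]
  refine intervalIntegral.integral_eq_sub_of_hasDerivAt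
    (f := fun s => k (c + e * s) * p₁ s - e * k₁ (c + e * s) * p s) ?_ (hi.intervalIntegrable _ _)
  intro s hs
  rw [uIcc_of_le hab] at hs
  have hm : c + e * s ∈ Icc (0 : ℝ) 1 := hf s hs ▸ fold1_mem s
  have hl : HasDerivAt (fun s => c + e * s) e s := by
    simpa using ((hasDerivAt_id s).const_mul e).const_add c
  have a1 : HasDerivAt (fun s => k (c + e * s)) (k₁ (c + e * s) * e) s := (hk _ hm).1.comp s hl
  have a2 : HasDerivAt (fun s => k₁ (c + e * s)) (k₂ (c + e * s) * e) s := (hk _ hm).2.comp s hl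
  refine ((a1.fun_mul (hp s).2).fun_sub ((a2.const_mul e).fun_mul (hp s).1)).congr_deriv ?_
  rw [hf s hs]
  linear_combination (-(k₂ (c + e * s) * p s)) * he

/-- The identity on a line. -/
lemma line_fold (k k₁ k₂ p p₁ p₂ : ℝ → ℝ)
    (hk : ∀ x ∈ Icc (0 : ℝ) 1, HasDerivAt k (k₁ x) x ∧ HasDerivAt k₁ (k₂ x) x)
    (hk₂ : ContinuousOn k₂ (Icc 0 1)) (h0 : k₁ 0 = 0) (h1 : k₁ 1 = 0)
    (hp : ∀ x, HasDerivAt p (p₁ x) x ∧ HasDerivAt p₁ (p₂ x) x) (hp₂ : Continuous p₂)
    (hz : ∀ x, x ∉ Ioo (-1 : ℝ) 2 → p x = 0 ∧ p₁ x = 0 ∧ p₂ x = 0) :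
    ∫ s, (k (fold1 s) * p₂ s - k₂ (fold1 s) * p s) = 0 := by
  have hkc : ContinuousOn k (Icc 0 1) := fun x hx => (hk x hx).1.continuousAt.continuousWithinAt
  have hpc : Continuous p := continuous_iff_continuousAt.2 fun x => (hp x).1.continuousAt
  have hi : Continuous fun s => k (fold1 s) * p₂ s - k₂ (fold1 s) * p s :=
    ((hkc.comp_continuous continuous_fold1 fold1_mem).mul hp₂).sub
      ((hk₂.comp_continuous continuous_fold1 fold1_mem).mul hpc)
  rw [← intervalIntegral.integral_eq_integral_of_support_subset (a := -1) (b := 2)]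
  · rw [← intervalIntegral.integral_add_adjacent_intervals (b := 1) (hi.intervalIntegrable _ _)
      (hi.intervalIntegrable _ _),
      ← intervalIntegral.integral_add_adjacent_intervals (a := -1) (b := 0)
        (hi.intervalIntegrable _ _) (hi.intervalIntegrable _ _),
      piece k k₁ k₂ p p₁ p₂ (-1) 0 0 (-1) (by norm_num) (by norm_num) (fun s hs => fold1_left hs)
        hk hp hi,
      piece k k₁ k₂ p p₁ p₂ 0 1 0 1 (by norm_num) (by norm_num)
        (fun s hs => by rw [fold1_of_mem hs]; ring) hk hp hi,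
      piece k k₁ k₂ p p₁ p₂ 1 2 2 (-1) (by norm_num) (by norm_num) (fun s hs => fold1_right hs)
        hk hp hi]
    obtain ⟨a1, a2, -⟩ := hz (-1) (by simp)
    obtain ⟨b1, b2, -⟩ := hz 2 (by simp)
    rw [fold1_of_mem (x := 0) (by simp), fold1_of_mem (x := 1) (by simp), a1, a2, b1, b2, h0, h1]
    ring
  · intro s hs
    by_contra hn
    obtain ⟨a1, -, a3⟩ := hz s fun h => hn (Ioo_subset_Ioc_self h)
    exact hs (by simp [a1, a3])

/-- The directional derivative. -/
def dv (v : ℂ) (f : ℂ → ℝ) (z : ℂ) : ℝ := fderiv ℝ f z v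

lemma hasDerivAt_line {f : ℂ → ℝ} (z v : ℂ) (s : ℝ) (hf : DifferentiableAt ℝ f (z + s • v)) :
    HasDerivAt (fun t : ℝ => f (z + t • v)) (dv v f (z + s • v)) s := by
  have hl : HasDerivAt (fun t : ℝ => z + t • v) v s := by
    simpa using ((hasDerivAt_id s).smul_const v).const_add z
  exact hf.hasFDerivAt.comp_hasDerivAt s hl

lemma contDiffAt_dv {f : ℂ → ℝ} {z : ℂ} (v : ℂ) {m n : WithTop ℕ∞} (hf : ContDiffAt ℝ n f z)
    (hmn : m + 1 ≤ n) : ContDiffAt ℝ m (dv v f) z :=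
  (hf.fderiv_right hmn).clm_apply contDiffAt_const

lemma tsupport_dv (v : ℂ) (f : ℂ → ℝ) : tsupport (dv v f) ⊆ tsupport f :=
  tsupport_fderiv_apply_subset ℝ v

lemma test_dv {O : Set ℂ} {ψ : ℂ → ℝ} (v : ℂ) (h : Test O ψ) : Test O (dv v ψ) :=
  ⟨contDiff_iff_contDiffAt.2 fun _ => contDiffAt_dv v h.1.contDiffAt le_rfl,
    h.2.1.fderiv_apply ℝ v, (tsupport_dv v ψ).trans h.2.2⟩

lemma test_zero {O : Set ℂ} {ψ : ℂ → ℝ} (h : Test O ψ) {w : ℂ} (hw : w ∉ O) : ψ w = 0 :=
  image_eq_zero_of_notMem_tsupport fun hm => hw (h.2.2 hm)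

lemma integrable_fold {k ψ : ℂ → ℝ} (hk : ∀ w ∈ Sq, w ≠ 0 → ContinuousAt k w)
    (hψ : Test (box (-1) 2 \ {0}) ψ) : Integrable fun w => k (fold w) * ψ w := by
  refine Continuous.integrable_of_hasCompactSupport ?_ hψ.2.1.mul_left
  refine continuous_iff_continuousAt.2 fun w => ?_
  by_cases hw : w ∈ tsupport ψ
  · exact (ContinuousAt.comp (hk _ (fold_mem w) (fold_ne_zero (hψ.2.2 hw)))
      continuous_fold.continuousAt).mul hψ.1.continuous.continuousAt
  · refine ContinuousAt.congr (f := fun _ => 0) continuousAt_const ?_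
    filter_upwards [notMem_tsupport_iff_eventuallyEq.1 hw] with y hy
    simp [hy]

/-- The identity on the line `t • u + ℝ • v`. -/
lemma line_dir {h ψ : ℂ → ℝ} (u v : ℂ) (hh : ∀ w ∈ Sq, w ≠ 0 → ContDiffAt ℝ 2 h w)
    (hψ : Test (box (-1) 2 \ {0}) ψ)
    (hF : ∀ t s : ℝ, fold (t • u + s • v) = fold1 t • u + fold1 s • v)
    (hS : ∀ t ∈ Icc (0 : ℝ) 1, t ≠ 0 → ∀ s ∈ Icc (0 : ℝ) 1, t • u + s • v ∈ Sq ∧ t • u + s • v ≠ 0)
    (hB : ∀ t s : ℝ, t • u + s • v ∈ box (-1) 2 → t ∈ Ioo (-1 : ℝ) 2 ∧ s ∈ Ioo (-1 : ℝ) 2)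
    (hN : ∀ t ∈ Icc (0 : ℝ) 1, t ≠ 0 → ∀ s : ℝ, s = 0 ∨ s = 1 → dv v h (t • u + s • v) = 0)
    (t : ℝ) (ht : t ≠ 0) :
    ∫ s : ℝ, (h (fold (t • u + s • v)) * dv v (dv v ψ) (t • u + s • v) -
      dv v (dv v h) (fold (t • u + s • v)) * ψ (t • u + s • v)) = 0 := by
  have hψ1 := test_dv v hψ
  have hψ2 := test_dv v hψ1
  by_cases hb : t ∈ Ioo (-1 : ℝ) 2
  · simp only [hF]
    have hτ := fold1_mem t
    have hτ0 := fold1_ne_zero hb ht
    refine line_fold (fun s => h (fold1 t • u + s • v)) (fun s => dv v h (fold1 t • u + s • v))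
      (fun s => dv v (dv v h) (fold1 t • u + s • v)) (fun s => ψ (t • u + s • v))
      (fun s => dv v ψ (t • u + s • v)) (fun s => dv v (dv v ψ) (t • u + s • v)) ?_ ?_
      (hN _ hτ hτ0 0 (Or.inl rfl)) (hN _ hτ hτ0 1 (Or.inr rfl)) ?_ ?_ ?_
    · intro x hx
      have a := hh _ (hS _ hτ hτ0 x hx).1 (hS _ hτ hτ0 x hx).2
      exact ⟨hasDerivAt_line _ _ _ (a.differentiableAt (by norm_num)),
        hasDerivAt_line _ _ _ ((contDiffAt_dv v (m := 1) a (by norm_num)).differentiableAt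
          (by norm_num))⟩
    · intro x hx
      have a := hh _ (hS _ hτ hτ0 x hx).1 (hS _ hτ hτ0 x hx).2
      have b : ContinuousAt (dv v (dv v h)) (fold1 t • u + x • v) :=
        (contDiffAt_dv v (m := 0) (contDiffAt_dv v (m := 1) a (by norm_num))
          (by norm_num)).continuousAt
      exact (ContinuousAt.comp (f := fun s : ℝ => fold1 t • u + s • v) b
        (by fun_prop)).continuousWithinAt
    · intro x
      exact ⟨hasDerivAt_line _ _ _ (hψ.1.differentiable (by simp) _),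
        hasDerivAt_line _ _ _ (hψ1.1.differentiable (by simp) _)⟩
    · exact hψ2.1.continuous.comp (by fun_prop)
    · intro x hx
      have : t • u + x • v ∉ box (-1) 2 \ {0} := fun hm => hx (hB _ _ hm.1).2
      exact ⟨test_zero hψ this, test_zero hψ1 this, test_zero hψ2 this⟩
  · have : ∀ s : ℝ, t • u + s • v ∉ box (-1) 2 \ {0} := fun s hm => hb (hB _ _ hm.1).1
    simp only [test_zero hψ (this _), test_zero hψ2 (this _), mul_zero, sub_zero, integral_zero]

lemma ae_ne_zero : ∀ᵐ t : ℝ, t ≠ 0 := by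
  simp [ae_iff]

lemma integral_zero_of_lines {A : ℂ → ℝ} (hA : Integrable A) :
    ((∀ t : ℝ, t ≠ 0 → ∫ s : ℝ, A (t • I + s • 1) = 0) → ∫ w, A w = 0) ∧
      ((∀ t : ℝ, t ≠ 0 → ∫ s : ℝ, A (t • 1 + s • I) = 0) → ∫ w, A w = 0) := by
  have hm := Complex.volume_preserving_equiv_real_prod.symm
  have hi : Integrable (fun p : ℝ × ℝ => A (Complex.measurableEquivRealProd.symm p))
      (volume.prod volume) :=
    (hm.integrable_comp_emb Complex.measurableEquivRealProd.symm.measurableEmbedding).2 hA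
  have he : ∫ w, A w = ∫ p : ℝ × ℝ, A (Complex.measurableEquivRealProd.symm p)
      ∂(volume.prod volume) :=
    (hm.integral_comp Complex.measurableEquivRealProd.symm.measurableEmbedding A).symm
  constructor
  · intro H
    rw [he, integral_prod_symm _ hi]
    refine integral_eq_zero_of_ae ?_
    filter_upwards [ae_ne_zero] with t ht
    refine Eq.trans ?_ (H t ht)
    congr 1
    funext s
    congr 1
    apply Complex.ext <;> simp
  · intro H
    rw [he, integral_prod _ hi]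
    refine integral_eq_zero_of_ae ?_
    filter_upwards [ae_ne_zero] with t ht
    refine Eq.trans ?_ (H t ht)
    congr 1
    funext s
    congr 1
    apply Complex.ext <;> simp

theorem foldGreen : FoldStmt := by
  intro h ψ hh hN hψ
  have c0 : ∀ w ∈ Sq, w ≠ 0 → ContinuousAt h w := fun w hw h0 => (hh w hw h0).continuousAt
  have c2 : ∀ v, ∀ w ∈ Sq, w ≠ 0 → ContinuousAt (dv v (dv v h)) w := fun v w hw h0 =>
    (contDiffAt_dv v (m := 0) (contDiffAt_dv v (m := 1) (hh w hw h0) (by norm_num))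
      (by norm_num)).continuousAt
  have i1 := fun v => integrable_fold c0 (test_dv v (test_dv v hψ))
  have i2 := fun v => integrable_fold (c2 v) hψ
  have e1 : (fun w => h (fold w) * lap ψ w) = fun w =>
      h (fold w) * dv 1 (dv 1 ψ) w + h (fold w) * dv I (dv I ψ) w := by
    funext w
    exact mul_add _ _ _
  have e2 : (fun w => lap h (fold w) * ψ w) = fun w =>
      dv 1 (dv 1 h) (fold w) * ψ w + dv I (dv I h) (fold w) * ψ w := by
    funext w
    exact add_mul _ _ _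
  have z1 := (integral_zero_of_lines ((i1 1).sub (i2 1))).1
    (line_dir I 1 hh hψ ?_ ?_ ?_ ?_)
  have z2 := (integral_zero_of_lines ((i1 I).sub (i2 I))).2
    (line_dir 1 I hh hψ ?_ ?_ ?_ ?_)
  · rw [e1, e2]
    refine ⟨(i1 1).add (i1 I), (i2 1).add (i2 I), ?_⟩
    simp only [Pi.sub_apply] at z1 z2
    rw [integral_sub (i1 _) (i2 _)] at z1 z2
    rw [integral_add (i1 1) (i1 I), integral_add (i2 1) (i2 I)]
    linarith
  · intro t s
    apply Complex.ext <;> simp [fold]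
  · intro t ht h0 s hs
    refine ⟨⟨by simpa using ht, by simpa using hs⟩, fun e => h0 ?_⟩
    simpa using congrArg Complex.re e
  · intro t s hm
    exact ⟨by simpa using hm.1, by simpa using hm.2⟩
  · intro t ht h0 s hs
    have hs' : s ∈ Icc (0 : ℝ) 1 := by rcases hs with rfl | rfl <;> simp
    refine (hN _ ⟨by simpa using ht, by simpa using hs'⟩ fun e => h0 ?_).2 (by simpa using hs)
    simpa using congrArg Complex.re e
  · intro t s
    apply Complex.ext <;> simp [fold]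
  · intro t ht h0 s hs
    refine ⟨⟨by simpa using hs, by simpa using ht⟩, fun e => h0 ?_⟩
    simpa using congrArg Complex.im e
  · intro t s hm
    exact ⟨by simpa using hm.2, by simpa using hm.1⟩
  · intro t ht h0 s hs
    have hs' : s ∈ Icc (0 : ℝ) 1 := by rcases hs with rfl | rfl <;> simp
    refine (hN _ ⟨by simpa using hs', by simpa using ht⟩ fun e => h0 ?_).1 (by simpa using hs)
    simpa using congrArg Complex.im e

end Pool.Agent.MP_6b3e96_gt.H28
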